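import Mathlib
import Pool.Agent.H84.GHEx

set_option autoImplicit false

namespace Pool.Agent.Results.MP_975509_gt.Counter

theorem result : ∃ (X : Fin 3 → Type) (_ : ∀ i, MetricSpace (X i)) (_ : ∀ i, CompactSpace (X i))
    (_ : ∀ i, Nonempty (X i)),
    ∀ (Z : Type) [MetricSpace Z] (φ : ∀ i, X i → Z), (∀ i, Isometry (φ i)) →
      ∃ i j, i ≠ j ∧ GromovHausdorff.ghDist (X i) (X j) <
        Metric.hausdorffDist (Set.range (φ i)) (Set.range (φ j)) := by
  refine ⟨Pool.Agent.H84.GHEx.W, inferInstance, inferInstance, inferInstance, fun Z _ φ hφ => ?_⟩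
  by_contra h
  push Not at h
  exact Pool.Agent.H84.GHEx.noZ φ hφ fun i j hij =>
    (h i j hij).trans (Pool.Agent.H84.GHEx.ghDistW i j)

end Pool.Agent.Results.MP_975509_gt.Counter
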